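import Pool.Agent.helper24.CG.Spec

/-!
# Row CG/TUP: most tuples have no bad pair
-/

set_option autoImplicit false

namespace Pool.Agent.helper24.CG

open Finset

open Classical in
/-- the weight of the tuples with a bad entry at `j` -/
theorem TUP_one {γ : Type} (F : Finset γ) (ν : γ → ℝ) (bad : γ → Prop) (θ : ℝ) (p : ℕ)
    (hν : ∀ x ∈ F, 0 ≤ ν x) (hb : ∑ y ∈ F.filter bad, ν y ≤ θ * ∑ y ∈ F, ν y) (j : Fin p) :
    ∑ f ∈ (Fintype.piFinset fun _ : Fin p => F).filter (fun f => bad (f j)), ∏ i, ν (f i) ≤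
      θ * (∑ x ∈ F, ν x) ^ p := by
  have h1 : (Fintype.piFinset fun _ : Fin p => F).filter (fun f => bad (f j)) =
      Fintype.piFinset (fun k : Fin p => if k = j then F.filter bad else F) := by
    ext f
    simp only [mem_filter, Fintype.mem_piFinset]
    constructor
    · rintro ⟨h, hj⟩ k
      by_cases hk : k = j
      · subst hk
        simp [h k, hj]
      · simp [hk, h k]
    · intro h
      refine ⟨fun k => ?_, ?_⟩
      · have := h k
        by_cases hk : k = j
        · rw [if_pos hk, mem_filter] at this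
          exact this.1
        · rw [if_neg hk] at this
          exact this
      · have := h j
        rw [if_pos rfl, mem_filter] at this
        exact this.2
  rw [h1, ← Finset.prod_univ_sum]
  have hT : 0 ≤ ∑ y ∈ F, ν y := Finset.sum_nonneg hν
  calc ∏ i : Fin p, ∑ y ∈ (if i = j then F.filter bad else F), ν y
      ≤ ∏ i : Fin p, ((if i = j then θ else 1) * ∑ y ∈ F, ν y) := by
        refine Finset.prod_le_prod ?_ ?_
        · intro i _
          refine Finset.sum_nonneg fun y hy => hν y ?_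
          by_cases hi : i = j
          · rw [if_pos hi, mem_filter] at hy
            exact hy.1
          · rw [if_neg hi] at hy
            exact hy
        · intro i _
          by_cases hi : i = j
          · rw [if_pos hi, if_pos hi]
            exact hb
          · rw [if_neg hi, if_neg hi, one_mul]
    _ = θ * (∑ x ∈ F, ν x) ^ p := by
        rw [Finset.prod_mul_distrib, Finset.prod_ite_eq' univ j (fun _ => θ), if_pos (mem_univ j),
          Finset.prod_const, Finset.card_univ, Fintype.card_fin]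

open Classical in
theorem TUP_step {γ : Type} (F : Finset γ) (ν : γ → ℝ) (bad : γ → Prop)
    (θ : ℝ) (p : ℕ) (good : (Fin p → γ) → Prop) (D1 : DecidablePred good)
    (D2 : DecidablePred fun f : Fin p → γ => (∀ j, ¬ bad (f j)) ∧ good f)
    (hν : ∀ x ∈ F, 0 ≤ ν x) (hb : ∑ y ∈ F.filter bad, ν y ≤ θ * ∑ y ∈ F, ν y) :
    ∑ f ∈ @Finset.filter _ good D1 (Fintype.piFinset fun _ : Fin p => F), ∏ i, ν (f i) ≤
      ∑ f ∈ @Finset.filter _ (fun f => (∀ j, ¬ bad (f j)) ∧ good f) D2
        (Fintype.piFinset fun _ : Fin p => F), ∏ i, ν (f i) + p * (θ * (∑ x ∈ F, ν x) ^ p) := by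
  have h1 : ∑ j : Fin p, ∑ f ∈ (Fintype.piFinset fun _ : Fin p => F).filter (fun f => bad (f j)),
      ∏ i, ν (f i) ≤ p * (θ * (∑ x ∈ F, ν x) ^ p) := by
    calc _ ≤ ∑ _j : Fin p, θ * (∑ x ∈ F, ν x) ^ p :=
          Finset.sum_le_sum fun j _ => TUP_one F ν bad θ p hν hb j
      _ = p * (θ * (∑ x ∈ F, ν x) ^ p) := by
          rw [Finset.sum_const, Finset.card_univ, Fintype.card_fin, nsmul_eq_mul]
  refine le_trans ?_ (add_le_add le_rfl h1)
  simp only [Finset.sum_filter]
  rw [Finset.sum_comm, ← Finset.sum_add_distrib]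
  refine Finset.sum_le_sum fun f hf => ?_
  have hw : 0 ≤ ∏ i, ν (f i) :=
    Finset.prod_nonneg fun i _ => hν _ (Fintype.mem_piFinset.mp hf i)
  have hs : 0 ≤ ∑ j : Fin p, (if bad (f j) then ∏ i, ν (f i) else 0) :=
    Finset.sum_nonneg fun j _ => by split_ifs <;> simp [hw]
  by_cases hg : good f
  · by_cases ho : ∀ j, ¬ bad (f j)
    · rw [if_pos hg, if_pos ⟨ho, hg⟩]
      linarith
    · rw [if_pos hg, if_neg (fun h => ho h.1), zero_add]
      push Not at ho
      obtain ⟨j, hj⟩ := ho
      calc ∏ i, ν (f i) = (if bad (f j) then ∏ i, ν (f i) else 0) := by rw [if_pos hj]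
        _ ≤ _ := Finset.single_le_sum (f := fun j => if bad (f j) then ∏ i, ν (f i) else 0)
            (fun k _ => by
              show 0 ≤ (if bad (f k) then ∏ i, ν (f i) else 0)
              split_ifs <;> simp [hw]) (mem_univ j)
  · rw [if_neg hg, if_neg (fun h => hg h.2), zero_add]
    exact hs

open Classical in
theorem TUP_ind {γ : Type} (F : Finset γ) (ν : γ → ℝ) (bad : γ → γ → Prop) (θ : ℝ)
    (hν : ∀ x ∈ F, 0 ≤ ν x) (hb : ∀ x ∈ F, ∑ y ∈ F.filter (fun y => bad x y), ν y ≤
      θ * ∑ y ∈ F, ν y) : ∀ p : ℕ,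
    (1 - θ * (p * (p - 1) / 2)) * (∑ x ∈ F, ν x) ^ p ≤
      ∑ f ∈ (Fintype.piFinset fun _ : Fin p => F).filter
        (fun f => ∀ i j, i < j → ¬ bad (f i) (f j)), ∏ i, ν (f i) := by
  intro p
  induction p with
  | zero => simp
  | succ p ih =>
    set T : ℝ := ∑ x ∈ F, ν x with hT
    have hT0 : 0 ≤ T := Finset.sum_nonneg hν
    set g : ℝ := ∑ f ∈ (Fintype.piFinset fun _ : Fin p => F).filter
        (fun f => ∀ i j, i < j → ¬ bad (f i) (f j)), ∏ i, ν (f i) with hg
    have h1 : ∑ f ∈ (Fintype.piFinset fun _ : Fin (p + 1) => F).filter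
        (fun f => ∀ i j, i < j → ¬ bad (f i) (f j)), ∏ i, ν (f i) =
        ∑ x ∈ F, ν x * ∑ f ∈ (Fintype.piFinset fun _ : Fin p => F).filter
          (fun f => (∀ j, ¬ bad x (f j)) ∧ ∀ i j, i < j → ¬ bad (f i) (f j)), ∏ i, ν (f i) := by
      simp_rw [Finset.mul_sum]
      rw [Finset.sum_sigma']
      refine Finset.sum_bij' (fun f _ => (⟨f 0, Fin.tail f⟩ : (_ : γ) × (Fin p → γ)))
        (fun w _ => (Fin.cons w.1 w.2 : Fin (p + 1) → γ)) ?_ ?_ ?_ ?_ ?_
      · intro f hf
        rw [mem_filter, Fintype.mem_piFinset] at hf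
        rw [mem_sigma, mem_filter, Fintype.mem_piFinset]
        refine ⟨hf.1 0, fun i => hf.1 i.succ, fun j => ?_, fun i j hij => ?_⟩
        · exact hf.2 0 j.succ (Fin.succ_pos j)
        · exact hf.2 i.succ j.succ (Fin.succ_lt_succ_iff.mpr hij)
      · intro w hw
        rw [mem_sigma, mem_filter, Fintype.mem_piFinset] at hw
        rw [mem_filter, Fintype.mem_piFinset]
        refine ⟨fun i => ?_, fun i j hij => ?_⟩
        · refine Fin.cases ?_ (fun k => ?_) i
          · simpa using hw.1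
          · simpa using hw.2.1 k
        · revert hij
          refine Fin.cases ?_ (fun l => ?_) j
          · intro h
            exact absurd h (Fin.not_lt_zero i)
          · refine Fin.cases ?_ (fun k => ?_) i
            · intro _
              simpa using hw.2.2.1 l
            · intro h
              simpa using hw.2.2.2 k l (Fin.succ_lt_succ_iff.mp h)
      · intro f _
        exact Fin.cons_self_tail f
      · intro w _
        simp
      · intro f _
        rw [Fin.prod_univ_succ]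
        rfl
    rw [h1]
    have h2 : ∀ x ∈ F, ν x * (g - p * (θ * T ^ p)) ≤
        ν x * ∑ f ∈ (Fintype.piFinset fun _ : Fin p => F).filter
          (fun f => (∀ j, ¬ bad x (f j)) ∧ ∀ i j, i < j → ¬ bad (f i) (f j)), ∏ i, ν (f i) := by
      intro x hx
      refine mul_le_mul_of_nonneg_left ?_ (hν x hx)
      have := TUP_step F ν (bad x) θ p (fun f => ∀ i j, i < j → ¬ bad (f i) (f j))
        inferInstance inferInstance hν (hb x hx)
      rw [← hT] at this
      exact sub_le_iff_le_add.mpr this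
    refine le_trans ?_ (Finset.sum_le_sum h2)
    rw [← Finset.sum_mul, ← hT]
    have h3 : T * ((1 - θ * (p * (p - 1) / 2)) * T ^ p - p * (θ * T ^ p)) ≤
        T * (g - p * (θ * T ^ p)) := by
      refine mul_le_mul_of_nonneg_left ?_ hT0
      linarith
    refine le_trans (le_of_eq ?_) h3
    push_cast
    ring

theorem TUP : TUP_stmt := by
  intro γ F ν bad p θ hν hθ hp hb
  have h := TUP_ind F ν bad θ hν hb p
  have hT0 : 0 ≤ (∑ x ∈ F, ν x) ^ p := pow_nonneg (Finset.sum_nonneg hν) p
  have h1 : (1 : ℝ) / 2 ≤ 1 - θ * (p * (p - 1) / 2) := by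
    have : θ * (p * (p - 1) / 2) ≤ ((p : ℝ) ^ 2 * θ) / 2 := by
      have h2 : 0 ≤ θ * (p : ℝ) := mul_nonneg hθ (Nat.cast_nonneg p)
      nlinarith
    linarith
  have h2 : 1 / 2 * (∑ x ∈ F, ν x) ^ p ≤ (1 - θ * (p * (p - 1) / 2)) * (∑ x ∈ F, ν x) ^ p :=
    mul_le_mul_of_nonneg_right h1 hT0
  linarith

end Pool.Agent.helper24.CG
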